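import Mathlib
import Pool.Agent.H50.Fm2

namespace Pool.Agent.Results.MP_fc91b2_co.Counter

open Pool.Agent.H50.Fm

theorem result (r : ℕ) (hr : 3 ≤ r) (n₀ : ℕ) : ∃ a ≥ n₀, ∃ M : Finset (Finset ℕ),
    IsCx M ∧ Flag M ∧ (∀ (R : Type) [CommRing R], HomMan R M (2 * r)) ∧
    (∀ v, {v} ∈ M ↔ v < r * a) ∧ (∃ γ, IsGamma r M γ) ∧ (∃ γ', IsGamma r (JJ a r) γ') ∧
    ∀ γ γ', IsGamma r M γ → IsGamma r (JJ a r) γ' →
      (γ 2 : ℚ) / γ' 2 < 0 ∧ 0 < (γ 3 : ℚ) / γ' 3 := by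
  have hk : 0 < n₀ + 2 := by omega
  have g1 := gam_MM (r := r) (by omega) hk
  have g2 := gam_JJ (a := 4 * (n₀ + 2)) (by omega) r
  refine ⟨4 * (n₀ + 2), by omega, MM (2 * r) (n₀ + 2), MM_cx hk, MM_flag (by omega) hk,
    fun R _ => MM_man R (by omega), fun v => ?_, ⟨_, g1⟩, ⟨_, g2⟩, fun γ γ' h h' => ?_⟩
  · rw [MM_vert (by omega), show 2 * ((n₀ + 2) * (2 * r)) = r * (4 * (n₀ + 2)) by ring]
  rw [gam_uniq h g1 2 (by omega), gam_uniq h g1 3 hr, gam_uniq h' g2 2 (by omega),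
    gam_uniq h' g2 3 hr]
  have c2 : (0 : ℚ) < r.choose 2 := by exact_mod_cast Nat.choose_pos (by omega)
  have c3 : (0 : ℚ) < r.choose 3 := by exact_mod_cast Nat.choose_pos hr
  have n0 : (0 : ℚ) ≤ n₀ := by positivity
  have p : (0 : ℚ) < 4 * (n₀ + 2) - 4 := by linarith
  push_cast
  exact ⟨div_neg_of_neg_of_pos (by nlinarith) (by positivity),
    div_pos (by nlinarith) (by positivity)⟩

end Pool.Agent.Results.MP_fc91b2_co.Counter
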